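import Pool.Agent.K6.H51.PT.Defs

set_option autoImplicit false

namespace Pool.Agent.K6.H51.PT

universe u

open Cardinal Set Order

variable {κ : Cardinal.{u}}

lemma mk_K : #(K κ) = κ := mk_ord_toType κ

lemma mk_Iio_lt' (a : K κ) : #(Iio a) < κ := by
  have h := Cardinal.mk_Iio_lt a (by simp)
  simpa using h

lemma mk_Iic_lt (hκ : ℵ₀ ≤ κ) (a : K κ) : #(Iic a) < κ := by
  rw [← Iio_insert]
  refine (mk_insert_le).trans_lt ?_
  exact add_lt_of_lt hκ (mk_Iio_lt' a) (one_lt_aleph0.trans_le hκ)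

lemma exists_gt_K (hκ : ℵ₀ ≤ κ) (a : K κ) : ∃ b, a < b := by
  by_contra! h
  have h1 : (Iic a : Set (K κ)) = Set.univ := eq_univ_of_forall fun b => h b
  have h2 := mk_Iic_lt hκ a
  rw [h1, mk_univ, mk_K] at h2
  exact lt_irrefl _ h2

/-- families of fewer than `κ` elements are bounded -/
lemma exists_bound (hκ : κ.IsRegular) {ι : Type u} (hι : #ι < κ) (f : ι → K κ) : ∃ b, ∀ i, f i < b := by
  have h1 : #(⋃ i, Iic (f i)) < κ :=
    (card_iUnion_lt_iff_forall_of_isRegular hκ hι).2 fun i => mk_Iic_lt hκ.aleph0_le _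
  by_contra! h
  have h2 : (⋃ i, Iic (f i)) = Set.univ := by
    refine eq_univ_of_forall fun b => ?_
    obtain ⟨i, hi⟩ := h b
    exact mem_iUnion.2 ⟨i, hi⟩
  rw [h2, mk_univ, mk_K] at h1
  exact lt_irrefl _ h1

lemma small_iff (hκ : κ.IsRegular) {A : Set (K κ)} : #A < κ ↔ ∃ b, ∀ a ∈ A, a < b := by
  constructor
  · intro h
    obtain ⟨b, hb⟩ := exists_bound hκ h (fun a => (a : K κ))
    exact ⟨b, fun a ha => hb ⟨a, ha⟩⟩
  · rintro ⟨b, hb⟩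
    exact (mk_le_mk_of_subset (show A ⊆ Iio b from hb)).trans_lt (mk_Iio_lt' b)

lemma almost_iff (hκ : κ.IsRegular) {A F : Set (K κ)} :
    AlmostSubset κ A F ↔ ∃ b, ∀ a ∈ A, b ≤ a → a ∈ F := by
  rw [AlmostSubset, small_iff hκ]
  constructor
  · rintro ⟨b, hb⟩
    refine ⟨b, fun a ha hba => ?_⟩
    by_contra h
    exact (hb a ⟨ha, h⟩).not_ge hba
  · rintro ⟨b, hb⟩
    refine ⟨b, fun a ha => ?_⟩
    by_contra! h
    exact ha.2 (hb a ha.1 h)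

lemma mk_le_K (A : Set (K κ)) : #A ≤ κ := (mk_set_le A).trans mk_K.le

lemma full_iff (hκ : κ.IsRegular) {A : Set (K κ)} : #A = κ ↔ ∀ b, ∃ a ∈ A, b ≤ a := by
  constructor
  · intro h b
    by_contra! h1
    exact ((small_iff hκ).2 ⟨b, h1⟩).ne h
  · intro h
    refine le_antisymm (mk_le_K A) ?_
    by_contra! h1
    obtain ⟨b, hb⟩ := (small_iff hκ).1 h1
    obtain ⟨a, ha, hba⟩ := h b
    exact (hb a ha).not_ge hba

lemma almost_trans (hκ : κ.IsRegular) {A B C : Set (K κ)} (h1 : AlmostSubset κ A B) (h2 : AlmostSubset κ B C) :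
    AlmostSubset κ A C := by
  rw [almost_iff hκ] at *
  obtain ⟨b, hb⟩ := h1
  obtain ⟨c, hc⟩ := h2
  refine ⟨max b c, fun a ha h => ?_⟩
  exact hc a (hb a ha ((le_max_left _ _).trans h)) ((le_max_right _ _).trans h)

/-- a decreasing sequence is a tower if it has no pseudo-intersection -/
lemma isTower_of (hκ : κ.IsRegular) {δ : Ordinal.{u}} {T : δ.ToType → Set (K κ)}
    (hfull : ∀ α, #(T α) = κ) (hdec : ∀ α β, α < β → AlmostSubset κ (T β) (T α))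
    (hbd : ∀ S : Set δ.ToType, #S < κ → ∃ γ, ∀ α ∈ S, α < γ)
    (hno : ∀ A : Set (K κ), (∀ α, AlmostSubset κ A (T α)) → #A ≠ κ) : IsTower κ δ T := by
  refine ⟨hdec, ?_, ?_, fun A hA => hno A fun α => hA _ (mem_range_self α)⟩
  · rintro _ ⟨α, rfl⟩
    exact hfull α
  · intro 𝓖 h𝓖 hs
    choose i hi using fun G : 𝓖 => h𝓖 G.2
    obtain ⟨γ, hγ⟩ := hbd (range i) (mk_range_le.trans_lt hs)
    have h1 : ∀ G : 𝓖, ∃ b, ∀ a ∈ T γ, b ≤ a → a ∈ (G : Set (K κ)) := by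
      intro G
      have h2 := hdec (i G) γ (hγ _ (mem_range_self G))
      rw [hi G] at h2
      exact (almost_iff hκ).1 h2
    choose b hb using h1
    obtain ⟨c, hc⟩ := exists_bound hκ hs b
    rw [full_iff hκ]
    intro d
    obtain ⟨a, ha, hda⟩ := (full_iff hκ).1 (hfull γ) (max c d)
    refine ⟨a, ?_, (le_max_right _ _).trans hda⟩
    intro G hG
    exact hb ⟨G, hG⟩ a ha (((hc ⟨G, hG⟩).le.trans (le_max_left _ _)).trans hda)

/-! ### `κ⁺ ≤ 𝔭(κ)` -/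

lemma succ_le_of_witness (hκ : κ.IsRegular) {𝓕 : Set (Set (K κ))} (h : IsWitness κ 𝓕) : succ κ ≤ #𝓕 := by
  rw [succ_le_iff]
  by_contra! hle
  obtain ⟨h1, h2, h3⟩ := h
  have hne : Nonempty 𝓕 := by
    by_contra hem
    rw [not_nonempty_iff, isEmpty_coe_sort] at hem
    refine h3 Set.univ ?_ (by rw [mk_univ, mk_K])
    rw [hem]
    intro F hF
    exact hF.elim
  have h4 : #𝓕 ≤ #(K κ) := by rwa [mk_K]
  obtain ⟨e⟩ := h4
  -- a surjection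
  let F : K κ → 𝓕 := Function.invFun e
  have hF : Function.Surjective F := Function.invFun_surjective e.injective
  have h5 : ∀ ν : K κ, ∃ x, ν ≤ x ∧ ∀ μ ≤ ν, x ∈ (F μ : Set (K κ)) := by
    intro ν
    have h6 := h2 ((fun μ => (F μ : Set (K κ))) '' Iic ν) (by
      rintro _ ⟨μ, -, rfl⟩
      exact (F μ).2) (mk_image_le.trans_lt (mk_Iic_lt hκ.aleph0_le ν))
    obtain ⟨x, hx, hνx⟩ := (full_iff hκ).1 h6 ν
    exact ⟨x, hνx, fun μ hμ => hx _ (mem_image_of_mem _ hμ)⟩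
  choose x hx1 hx2 using h5
  refine h3 (range x) ?_ ((full_iff hκ).2 fun b => ⟨x b, mem_range_self b, hx1 b⟩)
  intro G hG
  obtain ⟨μ, hμ⟩ := hF ⟨G, hG⟩
  rw [almost_iff hκ]
  obtain ⟨b, hb⟩ := exists_bound hκ (mk_Iio_lt' μ) (fun ν => x ν)
  refine ⟨b, ?_⟩
  rintro _ ⟨ν, rfl⟩ hbν
  have h7 : μ ≤ ν := by
    by_contra! h8
    exact (hb ⟨ν, h8⟩).not_ge hbν
  have h9 := hx2 ν μ h7
  rw [hμ] at h9
  exact h9

/-! ### domination -/

/-- `f ≤* g` -/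
def Dom (κ : Cardinal.{u}) (f g : K κ → K κ) : Prop := ∃ b, ∀ x, b ≤ x → f x ≤ g x

lemma Dom.trans {f g h : K κ → K κ} (h1 : Dom κ f g) (h2 : Dom κ g h) : Dom κ f h := by
  obtain ⟨b, hb⟩ := h1
  obtain ⟨c, hc⟩ := h2
  exact ⟨max b c, fun x hx => (hb x ((le_max_left _ _).trans hx)).trans (hc x ((le_max_right _ _).trans hx))⟩

/-- the bounding number -/
noncomputable def bNum (κ : Cardinal.{u}) : Cardinal.{u} :=
  sInf {c | ∃ 𝓕 : Set (K κ → K κ), (¬ ∃ g, ∀ f ∈ 𝓕, Dom κ f g) ∧ #𝓕 = c}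

lemma bNum_nonempty (hκ : κ.IsRegular) :
    {c | ∃ 𝓕 : Set (K κ → K κ), (¬ ∃ g, ∀ f ∈ 𝓕, Dom κ f g) ∧ #𝓕 = c}.Nonempty := by
  refine ⟨#(Set.univ : Set (K κ → K κ)), Set.univ, ?_, rfl⟩
  rintro ⟨g, hg⟩
  choose s hs using exists_gt_K hκ.aleph0_le
  obtain ⟨b, hb⟩ := hg (fun x => s (g x)) (mem_univ _)
  exact (hb b le_rfl).not_gt (hs _)

lemma bNum_le (hκ : κ.IsRegular) : bNum κ ≤ 2 ^ κ := by
  have h1 : bNum κ ≤ #(Set.univ : Set (K κ → K κ)) := by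
    refine csInf_le' ⟨Set.univ, ?_, rfl⟩
    rintro ⟨g, hg⟩
    choose s hs using exists_gt_K hκ.aleph0_le
    obtain ⟨b, hb⟩ := hg (fun x => s (g x)) (mem_univ _)
    exact (hb b le_rfl).not_gt (hs _)
  refine h1.trans ?_
  rw [mk_univ, ← power_def, mk_K, power_self_eq hκ.aleph0_le]

lemma exists_dom_of_lt {𝓕 : Set (K κ → K κ)} (h : #𝓕 < bNum κ) : ∃ g, ∀ f ∈ 𝓕, Dom κ f g := by
  by_contra h1
  exact notMem_of_lt_csInf' h ⟨𝓕, h1, rfl⟩

lemma exists_unbounded (hκ : κ.IsRegular) : ∃ 𝓕 : Set (K κ → K κ), (¬ ∃ g, ∀ f ∈ 𝓕, Dom κ f g) ∧ #𝓕 = bNum κ :=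
  csInf_mem (bNum_nonempty hκ)

/-- families of at most `κ` functions are bounded -/
lemma exists_dom_of_le (hκ : κ.IsRegular) {𝓕 : Set (K κ → K κ)} (h : #𝓕 ≤ κ) : ∃ g, ∀ f ∈ 𝓕, Dom κ f g := by
  rcases 𝓕.eq_empty_or_nonempty with hem | hne
  · exact ⟨id, by simp [hem]⟩
  have hne' : Nonempty 𝓕 := hne.to_subtype
  have h4 : #𝓕 ≤ #(K κ) := by rwa [mk_K]
  obtain ⟨e⟩ := h4
  let F : K κ → 𝓕 := Function.invFun e
  have hF : Function.Surjective F := Function.invFun_surjective e.injective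
  choose g hg using fun x : K κ => exists_bound hκ (mk_Iic_lt hκ.aleph0_le x) (fun i => (F i : K κ → K κ) x)
  refine ⟨g, fun f hf => ?_⟩
  obtain ⟨i, hi⟩ := hF ⟨f, hf⟩
  refine ⟨i, fun x hx => ?_⟩
  have h5 := hg x ⟨i, hx⟩
  simp only [hi] at h5
  exact h5.le

lemma lt_bNum (hκ : κ.IsRegular) : κ < bNum κ := by
  by_contra! h
  obtain ⟨𝓕, h1, h2⟩ := exists_unbounded hκ
  exact h1 (exists_dom_of_le hκ (h2.le.trans h))

end Pool.Agent.K6.H51.PT
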