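import Pool.Agent.K6.H51.PT.Basic

/-!
# `𝔱(κ) ≤ 𝔟(κ)`
-/

set_option autoImplicit false

namespace Pool.Agent.K6.H51.PT

universe u

open Cardinal Set Order

variable {κ : Cardinal.{u}}

/-- the points closed under `g` -/
def club (g : K κ → K κ) : Set (K κ) := {x | ∀ y < x, g y < x}

lemma club_full (hκ : κ.IsRegular) (hu : ℵ₀ < κ) (g : K κ → K κ) : #(club g) = κ := by
  rw [full_iff hκ]
  intro b0
  have hstep : ∀ s : K κ, ∃ s', s < s' ∧ ∀ y ≤ s, g y < s' := by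
    intro s
    obtain ⟨c, hc⟩ := exists_bound hκ (mk_Iic_lt hκ.aleph0_le s) (fun y => g y)
    obtain ⟨d, hd⟩ := exists_gt_K hκ.aleph0_le s
    exact ⟨max c d, hd.trans_le (le_max_right _ _), fun y hy => (hc ⟨y, hy⟩).trans_le (le_max_left _ _)⟩
  choose st hst1 hst2 using hstep
  let s : ℕ → K κ := fun n => st^[n] b0
  have hs : ∀ n, s (n + 1) = st (s n) := fun n => Function.iterate_succ_apply' st n b0
  have hex : ∃ z : K κ, ∀ n, s n < z := by
    obtain ⟨z, hz⟩ := exists_bound hκ (ι := ULift.{u} ℕ) (by simpa using hu) (fun n => s n.down)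
    exact ⟨z, fun n => hz ⟨n⟩⟩
  -- the supremum of the `s n`
  obtain ⟨x, hx, hmin⟩ := WellFounded.has_min (wellFounded_lt (α := K κ)) {z | ∀ n, s n < z} hex
  refine ⟨x, ?_, (hx 0).le⟩
  intro y hy
  have h1 : ¬ ∀ n, s n < y := fun h => hmin y h hy
  push Not at h1
  obtain ⟨n, hn⟩ := h1
  calc g y < st (s n) := hst2 _ _ hn
    _ = s (n + 1) := (hs n).symm
    _ < x := hx _

lemma club_mono (hκ : κ.IsRegular) {g h : K κ → K κ} (hd : Dom κ g h) : AlmostSubset κ (club h) (club g) := by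
  obtain ⟨b0, hb0⟩ := hd
  obtain ⟨b1, hb1⟩ := exists_bound hκ (mk_Iio_lt' b0) (fun y => g y)
  rw [almost_iff hκ]
  refine ⟨b1, fun x hx hbx y hy => ?_⟩
  rcases lt_or_ge y b0 with h1 | h1
  · exact (hb1 ⟨y, h1⟩).trans_le hbx
  · exact (hb0 y h1).trans_lt (hx y hy)

/-- a pseudo-intersection of clubs dominates -/
lemma dom_of_pseudo (hκ : κ.IsRegular) {D : Set (K κ)} (hD : #D = κ) :
    ∃ h : K κ → K κ, ∀ g : K κ → K κ, AlmostSubset κ D (club g) → Dom κ g h := by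
  have h1 : ∀ y : K κ, ∃ d ∈ D, y < d := by
    intro y
    obtain ⟨z, hz⟩ := exists_gt_K hκ.aleph0_le y
    obtain ⟨d, hd, hzd⟩ := (full_iff hκ).1 hD z
    exact ⟨d, hd, hz.trans_le hzd⟩
  choose h hh1 hh2 using h1
  refine ⟨h, fun g hg => ?_⟩
  obtain ⟨b, hb⟩ := (almost_iff hκ).1 hg
  exact ⟨b, fun x hx => (hb _ (hh1 x) (hx.trans (hh2 x).le) x (hh2 x)).le⟩

theorem exists_tower_bNum (hκ : κ.IsRegular) (hu : ℵ₀ < κ) :
    ∃ T : (bNum κ).ord.ToType → Set (K κ), IsTower κ (bNum κ).ord T := by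
  classical
  obtain ⟨𝓕, hun, hcard⟩ := exists_unbounded hκ
  have hb : ℵ₀ ≤ bNum κ := hκ.aleph0_le.trans (lt_bNum hκ).le
  -- enumerate
  have h1 : #𝓕 = #(K (bNum κ)) := by rw [hcard, mk_K]
  obtain ⟨e⟩ := Cardinal.eq.1 h1
  let f : K (bNum κ) → (K κ → K κ) := fun i => e.symm i
  let bd : Set (K κ → K κ) → (K κ → K κ) := fun 𝓖 => if h : ∃ g, ∀ f ∈ 𝓖, Dom κ f g then h.choose else id
  have hbd : ∀ 𝓖 : Set (K κ → K κ), #𝓖 < bNum κ → ∀ f ∈ 𝓖, Dom κ f (bd 𝓖) := by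
    intro 𝓖 h𝓖
    have h := exists_dom_of_lt h𝓖
    simp only [bd, dif_pos h]
    exact h.choose_spec
  let G : (α : K (bNum κ)) → ((β : K (bNum κ)) → β < α → (K κ → K κ)) → (K κ → K κ) :=
    fun α rec => bd (range (fun β : Iio α => rec β β.2) ∪ range (fun β : Iio α => f β))
  let g : K (bNum κ) → (K κ → K κ) := WellFounded.fix (wellFounded_lt (α := K (bNum κ))) G
  have hg : ∀ α, g α = bd (range (fun β : Iio α => g β) ∪ range (fun β : Iio α => f β)) := by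
    intro α
    exact WellFounded.fix_eq _ G α
  have hsm : ∀ α : K (bNum κ),
      #(range (fun β : Iio α => g β) ∪ range (fun β : Iio α => f β) : Set (K κ → K κ)) < bNum κ := by
    intro α
    refine (mk_union_le _ _).trans_lt ?_
    exact add_lt_of_lt hb (mk_range_le.trans_lt (mk_Iio_lt' α)) (mk_range_le.trans_lt (mk_Iio_lt' α))
  have hgg : ∀ α β, α < β → Dom κ (g α) (g β) := by
    intro α β h
    rw [hg β]
    exact hbd _ (hsm β) _ (Or.inl ⟨⟨α, h⟩, rfl⟩)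
  have hfg : ∀ α β, α < β → Dom κ (f α) (g β) := by
    intro α β h
    rw [hg β]
    exact hbd _ (hsm β) _ (Or.inr ⟨⟨α, h⟩, rfl⟩)
  -- nothing dominates all the `g α`
  have hno : ¬ ∃ h, ∀ α, Dom κ (g α) h := by
    rintro ⟨h, hh⟩
    refine hun ⟨h, fun φ hφ => ?_⟩
    obtain ⟨β, hβ⟩ := exists_gt_K hb (e ⟨φ, hφ⟩)
    have h2 := hfg _ _ hβ
    have h3 : f (e ⟨φ, hφ⟩) = φ := by simp [f]
    rw [h3] at h2
    exact h2.trans (hh β)
  refine ⟨fun α => club (g α), isTower_of hκ (fun α => club_full hκ hu _) (fun α β h => club_mono hκ (hgg α β h))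
    ?_ ?_⟩
  · intro S hS
    by_contra! h
    obtain ⟨w, hw⟩ := exists_dom_of_le hκ (𝓕 := g '' S) (mk_image_le.trans hS.le)
    refine hno ⟨w, fun α => ?_⟩
    obtain ⟨β, hβ, hαβ⟩ := h α
    have h4 := hw _ (mem_image_of_mem g hβ)
    rcases hαβ.eq_or_lt with h5 | h5
    · rw [h5]
      exact h4
    · exact (hgg α β h5).trans h4
  · intro A hA hfull
    obtain ⟨w, hw⟩ := dom_of_pseudo hκ hfull
    exact hno ⟨w, fun α => hw _ (hA α)⟩

end Pool.Agent.K6.H51.PT
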