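import Mathlib

/-!
# Pseudo-intersection and tower numbers at a regular cardinal
-/

set_option autoImplicit false

namespace Pool.Agent.K6.H51.PT

universe u

open Cardinal Set Order

/-- The cardinal `κ` as a set: a well-ordered set of type `κ`. -/
abbrev K (κ : Cardinal.{u}) : Type u := κ.ord.ToType

/-- `A ⊆* F`, i.e. `|A \ F| < κ`. -/
def AlmostSubset (κ : Cardinal.{u}) (A F : Set (K κ)) : Prop :=
  #(A \ F : Set (K κ)) < κ

/-- The strong intersection property: all the intersections of fewer than `κ` members have size `κ`. -/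
def SIP (κ : Cardinal.{u}) (𝓕 : Set (Set (K κ))) : Prop :=
  ∀ 𝓖 ⊆ 𝓕, #𝓖 < κ → #(⋂₀ 𝓖) = κ

/-- `A` is a pseudo-intersection of `𝓕`. -/
def IsPseudoIntersection (κ : Cardinal.{u}) (A : Set (K κ)) (𝓕 : Set (Set (K κ))) : Prop :=
  ∀ F ∈ 𝓕, AlmostSubset κ A F

/-- `𝓕` is a family of subsets of `κ` of cardinality `κ` which has the strong intersection property and no
pseudo-intersection of cardinality `κ`. -/
def IsWitness (κ : Cardinal.{u}) (𝓕 : Set (Set (K κ))) : Prop :=
  (∀ F ∈ 𝓕, #F = κ) ∧ SIP κ 𝓕 ∧ ∀ A : Set (K κ), IsPseudoIntersection κ A 𝓕 → #A ≠ κ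

/-- The pseudo-intersection number `𝔭(κ)`. -/
noncomputable def pNum (κ : Cardinal.{u}) : Cardinal.{u} :=
  sInf {c | ∃ 𝓕 : Set (Set (K κ)), IsWitness κ 𝓕 ∧ #𝓕 = c}

/-- `T` is a tower: a family, indexed by the ordinal `δ`, which is decreasing for `⊆*`, has the strong
intersection property, and has no pseudo-intersection of cardinality `κ`. -/
def IsTower (κ : Cardinal.{u}) (δ : Ordinal.{u}) (T : δ.ToType → Set (K κ)) : Prop :=
  (∀ α β, α < β → AlmostSubset κ (T β) (T α)) ∧ IsWitness κ (range T)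

/-- The tower number `𝔱(κ)`. -/
noncomputable def tNum (κ : Cardinal.{u}) : Cardinal.{u} :=
  sInf {c | ∃ (δ : Ordinal.{u}) (T : δ.ToType → Set (K κ)), IsTower κ δ T ∧ #(range T) = c}

end Pool.Agent.K6.H51.PT
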