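import Pool.Agent.K6.H51.PT.Basic

/-!
# A transitive structure on `κ⁺`, and towers of length `κ⁺`
-/

set_option autoImplicit false

namespace Pool.Agent.K6.H51.PT

universe u

open Cardinal Set Order

variable {κ : Cardinal.{u}}

/-- There are transitive relations `P ν` (`ν < κ`) on `κ⁺`, increasing with `ν`, whose union is `<`, such that all
elements have fewer than `κ` predecessors. -/
theorem exists_transitive (hκ : κ.IsRegular) :
    ∃ P : K κ → K (succ κ) → K (succ κ) → Prop,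
      (∀ ν α β γ, P ν α β → P ν β γ → P ν α γ) ∧ (∀ ν μ α β, ν ≤ μ → P ν α β → P μ α β) ∧
      (∀ α β, α < β → ∃ ν, P ν α β) ∧ (∀ ν β, #{α | P ν α β} < κ) := by
  have h0 : ∀ α : K (succ κ), ∃ e : Iio α → K κ, Function.Injective e := by
    intro α
    have h1 : #(Iio α) ≤ #(K κ) := by
      rw [mk_K, ← lt_succ_iff]
      exact mk_Iio_lt' α
    obtain ⟨e⟩ := h1
    exact ⟨e, e.injective⟩
  choose e he using h0
  let R : K κ → K (succ κ) → K (succ κ) → Prop := fun ν β α => ∃ h : β < α, e α ⟨β, h⟩ < ν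
  have hsmall : ∀ ν α, #{β | Relation.TransGen (R ν) β α} < κ := by
    intro ν α
    induction α using WellFoundedLT.induction with
    | _ α ih =>
      have h1 : {β | Relation.TransGen (R ν) β α} ⊆
          ⋃ γ : {γ | R ν γ α}, insert (γ : K (succ κ)) {β | Relation.TransGen (R ν) β γ} := by
        intro β hβ
        rcases (hβ : Relation.TransGen (R ν) β α) with h2 | ⟨h2, h3⟩
        · exact mem_iUnion.2 ⟨⟨β, h2⟩, mem_insert _ _⟩
        · exact mem_iUnion.2 ⟨⟨_, h3⟩, mem_insert_of_mem _ h2⟩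
      refine (mk_le_mk_of_subset h1).trans_lt ((card_iUnion_lt_iff_forall_of_isRegular hκ ?_).2 ?_)
      · -- few steps
        let i : {γ | R ν γ α} → Iio ν := fun γ => ⟨e α ⟨γ, γ.2.choose⟩, γ.2.choose_spec⟩
        have hi : Function.Injective i := by
          intro γ γ' h
          have h3 : e α ⟨γ, γ.2.choose⟩ = e α ⟨γ', γ'.2.choose⟩ := congrArg Subtype.val h
          have h4 := he α h3
          exact Subtype.ext (Subtype.mk.inj h4)
        exact (mk_le_of_injective hi).trans_lt (mk_Iio_lt' ν)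
      · intro γ
        refine mk_insert_le.trans_lt ?_
        exact add_lt_of_lt hκ.aleph0_le (ih γ γ.2.choose) (one_lt_aleph0.trans_le hκ.aleph0_le)
  refine ⟨fun ν => Relation.TransGen (R ν), fun ν α β γ => Relation.TransGen.trans, ?_, ?_, hsmall⟩
  · intro ν μ α β hνμ h
    have hR : ∀ a b, R ν a b → R μ a b := fun a b ⟨h1, h2⟩ => ⟨h1, h2.trans_le hνμ⟩
    exact Relation.TransGen.mono hR _ _ h
  · intro α β h
    obtain ⟨ν, hν⟩ := exists_gt_K hκ.aleph0_le (e β ⟨α, h⟩)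
    exact ⟨ν, Relation.TransGen.single ⟨h, hν⟩⟩

/-- a witness for `𝔭(κ) = κ⁺` gives a tower of length `κ⁺` if `κ⁺ < 𝔟(κ)` -/
theorem exists_tower_succ (hκ : κ.IsRegular) {𝓕 : Set (Set (K κ))} (hw : IsWitness κ 𝓕) (hc : #𝓕 = succ κ)
    (hb : succ κ < bNum κ) : ∃ T : (succ κ).ord.ToType → Set (K κ), IsTower κ (succ κ).ord T := by
  obtain ⟨P, htr, hmono, hex, hsm⟩ := exists_transitive hκ
  have hκ' : (succ κ).IsRegular := isRegular_succ hκ.aleph0_le
  have h1 : #𝓕 = #(K (succ κ)) := by rw [hc, mk_K]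
  obtain ⟨e⟩ := Cardinal.eq.1 h1
  let F : K (succ κ) → Set (K κ) := fun i => e.symm i
  have hF : ∀ i, F i ∈ 𝓕 := fun i => (e.symm i).2
  have h2 : ∀ (α : K (succ κ)) (ν : K κ), ∃ x, ν ≤ x ∧ ∀ β, P ν β α → x ∈ F β := by
    intro α ν
    have h3 := hw.2.1 (F '' {β | P ν β α}) (by
      rintro _ ⟨β, -, rfl⟩
      exact hF β) (mk_image_le.trans_lt (hsm ν α))
    obtain ⟨x, hx, hνx⟩ := (full_iff hκ).1 h3 ν
    exact ⟨x, hνx, fun β hβ => hx _ (mem_image_of_mem F hβ)⟩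
  choose f hf1 hf2 using h2
  obtain ⟨h, hh⟩ := exists_dom_of_lt (𝓕 := range f) (mk_range_le.trans_lt (by rwa [mk_K]))
  let T : K (succ κ) → Set (K κ) := fun α => {x | ∃ ν, ν ≤ x ∧ x ≤ h ν ∧ ∀ β, P ν β α → x ∈ F β}
  have hTF : ∀ α β, β < α → AlmostSubset κ (T α) (F β) := by
    intro α β hβα
    obtain ⟨ν0, hν0⟩ := hex β α hβα
    obtain ⟨b, hb⟩ := exists_bound hκ (mk_Iio_lt' ν0) (fun ν => h ν)
    rw [almost_iff hκ]
    refine ⟨b, ?_⟩
    rintro x ⟨ν, -, hxh, hx⟩ hbx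
    have h4 : ν0 ≤ ν := by
      by_contra! h5
      exact ((hb ⟨ν, h5⟩).trans_le hbx).not_ge hxh
    exact hx β (hmono ν0 ν β α h4 hν0)
  refine ⟨T, isTower_of hκ ?_ ?_ ?_ ?_⟩
  · intro α
    rw [full_iff hκ]
    intro b
    obtain ⟨c, hc⟩ := hh _ (mem_range_self α)
    refine ⟨f α (max b c), ⟨max b c, hf1 _ _, hc _ (le_max_right _ _), hf2 _ _⟩, ?_⟩
    exact (le_max_left _ _).trans (hf1 _ _)
  · intro α β hαβ
    obtain ⟨ν0, hν0⟩ := hex α β hαβ
    obtain ⟨b, hb⟩ := exists_bound hκ (mk_Iio_lt' ν0) (fun ν => h ν)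
    rw [almost_iff hκ]
    refine ⟨b, ?_⟩
    rintro x ⟨ν, hνx, hxh, hx⟩ hbx
    have h4 : ν0 ≤ ν := by
      by_contra! h5
      exact ((hb ⟨ν, h5⟩).trans_le hbx).not_ge hxh
    exact ⟨ν, hνx, hxh, fun γ hγ => hx γ (htr ν γ α β hγ (hmono ν0 ν α β h4 hν0))⟩
  · intro S hS
    obtain ⟨γ, hγ⟩ := exists_bound hκ' (hS.trans (lt_succ κ)) (fun α : S => (α : K (succ κ)))
    exact ⟨γ, fun α hα => hγ ⟨α, hα⟩⟩
  · intro A hA
    refine hw.2.2 A ?_
    intro G hG
    obtain ⟨α, hα⟩ := exists_gt_K hκ'.aleph0_le (e ⟨G, hG⟩)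
    have h4 := almost_trans hκ (hA α) (hTF α _ hα)
    have h5 : F (e ⟨G, hG⟩) = G := by simp [F]
    rwa [h5] at h4

end Pool.Agent.K6.H51.PT
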