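import Pool.Agent.K6.H51.PT.Club
import Pool.Agent.K6.H51.PT.Walk

set_option autoImplicit false

namespace Pool.Agent.K6.H51.PT

universe u

open Cardinal Set Order

variable {κ : Cardinal.{u}}

lemma tNum_mem (hκ : κ.IsRegular) (hu : ℵ₀ < κ) :
    ∃ (δ : Ordinal.{u}) (T : δ.ToType → Set (K κ)), IsTower κ δ T ∧ #(range T) = tNum κ := by
  obtain ⟨T, hT⟩ := exists_tower_bNum hκ hu
  exact csInf_mem (s := {c | ∃ (δ : Ordinal.{u}) (T : δ.ToType → Set (K κ)), IsTower κ δ T ∧ #(range T) = c})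
    ⟨_, _, T, hT, rfl⟩

lemma tNum_le_of {δ : Ordinal.{u}} {T : δ.ToType → Set (K κ)} (h : IsTower κ δ T) : tNum κ ≤ δ.card := by
  have h1 : tNum κ ≤ #(range T) := csInf_le' ⟨δ, T, h, rfl⟩
  refine h1.trans (mk_range_le.trans ?_)
  rw [Cardinal.mk_toType]

lemma tNum_le_bNum (hκ : κ.IsRegular) (hu : ℵ₀ < κ) : tNum κ ≤ bNum κ := by
  obtain ⟨T, hT⟩ := exists_tower_bNum hκ hu
  simpa using tNum_le_of hT

lemma pNum_mem (hκ : κ.IsRegular) (hu : ℵ₀ < κ) : ∃ 𝓕 : Set (Set (K κ)), IsWitness κ 𝓕 ∧ #𝓕 = pNum κ := by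
  obtain ⟨T, hT⟩ := exists_tower_bNum hκ hu
  exact csInf_mem (s := {c | ∃ 𝓕 : Set (Set (K κ)), IsWitness κ 𝓕 ∧ #𝓕 = c}) ⟨_, _, hT.2, rfl⟩

lemma succ_le_pNum (hκ : κ.IsRegular) (hu : ℵ₀ < κ) : succ κ ≤ pNum κ := by
  obtain ⟨𝓕, h1, h2⟩ := pNum_mem hκ hu
  rw [← h2]
  exact succ_le_of_witness hκ h1

lemma pNum_le_tNum (hκ : κ.IsRegular) (hu : ℵ₀ < κ) : pNum κ ≤ tNum κ := by
  obtain ⟨δ, T, h1, h2⟩ := tNum_mem hκ hu
  rw [← h2]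
  exact csInf_le' ⟨_, h1.2, rfl⟩

theorem tNum_eq_succ (hκ : κ.IsRegular) (hu : ℵ₀ < κ) (h : pNum κ = succ κ) : tNum κ = succ κ := by
  refine le_antisymm ?_ (h.ge.trans (pNum_le_tNum hκ hu))
  rcases le_or_gt (bNum κ) (succ κ) with h1 | h1
  · exact (tNum_le_bNum hκ hu).trans h1
  · obtain ⟨𝓕, h2, h3⟩ := pNum_mem hκ hu
    obtain ⟨T, hT⟩ := exists_tower_succ hκ h2 (h3.trans h) h1
    simpa using tNum_le_of hT

theorem main (hκ : κ.IsRegular) (hu : ℵ₀ < κ) :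
    (pNum κ = succ κ ↔ tNum κ = succ κ) ∧
      (pNum κ ≠ tNum κ → succ (succ κ) ≤ pNum κ ∧ pNum κ < tNum κ ∧ tNum κ ≤ 2 ^ κ) := by
  have h1 := succ_le_pNum hκ hu
  have h2 := pNum_le_tNum hκ hu
  refine ⟨⟨tNum_eq_succ hκ hu, fun h => le_antisymm (h2.trans h.le) h1⟩, fun hne => ⟨?_, lt_of_le_of_ne h2 hne,
    (tNum_le_bNum hκ hu).trans (bNum_le hκ)⟩⟩
  rw [succ_le_iff]
  refine lt_of_le_of_ne h1 fun h => hne ?_
  rw [← h, tNum_eq_succ hκ hu h.symm]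

end Pool.Agent.K6.H51.PT
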